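import Pool.Agent.H839R3.Nas.Stmts

set_option autoImplicit false

/-! Combinatorics of the generic set (helper62, project H839NAS). -/

namespace Pool.Agent.H62R3.Nas

open Pool.Agent.H839R3.Nas

theorem dbl (v : V) : v + v = 0 := by
  ext i
  exact CharTwo.add_self_eq_zero _

theorem add_cancel' (a b : V) : a + b + b = a := by rw [add_assoc, dbl, add_zero]

theorem neg_eq (v : V) : -v = v := by
  rw [neg_eq_iff_add_eq_zero]; exact dbl v

/-- the finite pattern domain -/
structure Dom (H : Finset V) (s t : V) (F : Finset V) : Prop where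
  zero : (0 : V) ∈ H
  add : ∀ a ∈ H, ∀ b ∈ H, a + b ∈ H
  hs : s ∉ H
  ht : t ∉ H
  hts : t + s ∉ H
  mem : ∀ c, c ∈ F ↔ c ∈ H ∨ c + s ∈ H ∨ c + t ∈ H ∨ c + s + t ∈ H

variable {H F : Finset V} {s t : V}

/-- the pattern of the points of `T` -/
def gg (U : V → Prop) (H : Finset V) (s t w : V) (c : V) : Prop :=
  (c ∈ H ∧ U (w + c)) ∨ (c + s ∈ H ∧ U (w + (c + s))) ∨ c = t ∨ c = t + s

theorem Dom.not_both (h : Dom H s t F) {c : V} (h1 : c ∈ H) (h2 : c + s ∈ H) : False := by
  have := h.add _ h1 _ h2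
  rw [← add_assoc, dbl, zero_add] at this
  exact h.hs this

theorem gg_H (h : Dom H s t F) (U : V → Prop) (w : V) {c : V} (hc : c ∈ H) :
    gg U H s t w c ↔ U (w + c) := by
  unfold gg
  constructor
  · rintro (h1 | h1 | h1 | h1)
    · exact h1.2
    · exact (h.not_both hc h1.1).elim
    · subst h1; exact (h.ht hc).elim
    · subst h1; exact (h.hts hc).elim
  · intro h1; exact Or.inl ⟨hc, h1⟩

theorem gg_shift (U : V → Prop) (w c : V) : gg U H s t w (c + s) ↔ gg U H s t w c := by
  unfold gg
  rw [add_cancel' c s]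
  have e1 : c + s = t ↔ c = t + s := by
    constructor
    · intro h; rw [← h, add_cancel']
    · intro h; rw [h, add_cancel']
  have e2 : c + s = t + s ↔ c = t := add_left_inj s
  rw [e1, e2]
  tauto

theorem gg_t (U : V → Prop) (w : V) : gg U H s t w t := Or.inr (Or.inr (Or.inl rfl))

theorem gg_th (h : Dom H s t F) (U : V → Prop) (w : V) {c : V} (hc : c ∈ H) (h0 : c ≠ 0) :
    ¬ gg U H s t w (t + c) := by
  unfold gg
  rintro (h1 | h1 | h1 | h1)
  · have := h.add _ h1.1 _ hc
    rw [add_cancel'] at this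
    exact h.ht this
  · have := h.add _ h1.1 _ hc
    have e : t + c + s + c = t + s := by
      have : t + c + s + c = t + s + (c + c) := by abel
      rw [this, dbl, add_zero]
    rw [e] at this
    exact h.hts this
  · exact h0 (by simpa using h1)
  · have : c = s := by simpa using h1
    subst this
    exact h.hs hc

/-- the set `T` -/
def TT (U : V → Prop) (H F : Finset V) (s t w : V) (b : V) : Prop :=
  b ∉ F ∧ ∀ c ∈ F, (U (b + c) ↔ gg U H s t w c)

theorem Dom.mem_shift (h : Dom H s t F) (c : V) : c + s ∈ F ↔ c ∈ F := by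
  rw [h.mem, h.mem, add_cancel']
  tauto

theorem tt_shift (h : Dom H s t F) {U : V → Prop} {w b : V} (hb : TT U H F s t w b) :
    TT U H F s t w (b + s) := by
  refine ⟨fun h1 => hb.1 ((h.mem_shift b).1 h1), fun c hc => ?_⟩
  have h1 := hb.2 (c + s) ((h.mem_shift c).2 hc)
  rw [gg_shift] at h1
  rw [← h1]
  have : b + s + c = b + (c + s) := by abel
  rw [this]

theorem Dom.memH (h : Dom H s t F) {c : V} (hc : c ∈ H) : c ∈ F := (h.mem c).2 (Or.inl hc)

theorem Dom.memt (h : Dom H s t F) {c : V} (hc : c ∈ H) : t + c ∈ F := by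
  rw [h.mem]
  right; right; left
  have : t + c + t = c := by
    have : t + c + t = c + (t + t) := by abel
    rw [this, dbl, add_zero]
  rw [this]; exact hc

theorem tt_disj (h : Dom H s t F) {U : V → Prop} {w b c : V} (hb : TT U H F s t w b)
    (hc : c ∈ H) (h0 : c ≠ 0) (hbc : TT U H F s t w (b + c)) : False := by
  have h1 := (hbc.2 t (by simpa using h.memt h.zero)).2 (gg_t U w)
  have h2 := (hb.2 (t + c) (h.memt hc)).1 (by
    have : b + (t + c) = b + c + t := by abel
    rw [this]; exact h1)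
  exact gg_th h U w hc h0 h2

theorem tt_not_H (h : Dom H s t F) {U : V → Prop} {w b : V} (hb : TT U H F s t w b) : b ∉ H :=
  fun h1 => hb.1 (h.memH h1)

open Classical in
/-- a consistent pattern: for finitely many points `b` of `T` there is a point `x` with the
prescribed values -/
theorem exists_x {U : V → Prop} (hU : Ext U) (h : Dom H s t F) (w : V) (f : V → Prop)
    (B : Finset V) (hB : ∀ b ∈ B, TT U H F s t w b) :
    ∃ x, (∀ c ∈ H, (U (x + c) ↔ f c)) ∧
      ∀ b ∈ B, (∀ c ∈ H, c ≠ 0 → ((U (x + b + c) ↔ f (w + c)) ∧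
        (U (x + (b + s) + c) ↔ f (w + c)))) ∧ (U (x + b) ↔ ¬ U (x + (b + s))) := by
  have hs0 : s ≠ 0 := fun e => h.hs (e ▸ h.zero)
  obtain ⟨enc, henc⟩ := Countable.exists_injective_nat V
  let T := TT U H F s t w
  let P : Set V := {p | (p ∈ H ∧ f p) ∨ (T p ∧ enc p < enc (p + s)) ∨
    ∃ b c, T b ∧ c ∈ H ∧ c ≠ 0 ∧ p = b + c ∧ f (w + c)}
  have p1 : ∀ c ∈ H, (c ∈ P ↔ f c) := by
    intro c hc
    constructor
    · rintro (h1 | h1 | ⟨b, c', hb, hc', _, he, _⟩)
      · exact h1.2
      · exact (tt_not_H h h1.1 hc).elim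
      · have : b = c + c' := by rw [he, add_cancel']
        exact (tt_not_H h hb (this ▸ h.add _ hc _ hc')).elim
    · intro h1; exact Or.inl ⟨hc, h1⟩
  have p2 : ∀ b, T b → (b ∈ P ↔ enc b < enc (b + s)) := by
    intro b hb
    constructor
    · rintro (h1 | h1 | ⟨b', c', hb', hc', h0, he, _⟩)
      · exact (tt_not_H h hb h1.1).elim
      · exact h1.2
      · exact (tt_disj h hb' hc' h0 (he ▸ hb)).elim
    · intro h1; exact Or.inr (Or.inl ⟨hb, h1⟩)
  have p3 : ∀ b c, T b → c ∈ H → c ≠ 0 → (b + c ∈ P ↔ f (w + c)) := by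
    intro b c hb hc h0
    constructor
    · rintro (h1 | h1 | ⟨b', c', hb', hc', h0', he, h2⟩)
      · have := h.add _ h1.1 _ hc
        rw [add_cancel'] at this
        exact (tt_not_H h hb this).elim
      · exact (tt_disj h hb hc h0 h1.1).elim
      · by_cases e : c = c'
        · rw [e]; exact h2
        · exfalso
          have e1 : b' = b + (c + c') := by
            have : b + (c + c') = (b + c) + c' := by abel
            rw [this, he, add_cancel']
          refine tt_disj h hb (h.add _ hc _ hc') ?_ (e1 ▸ hb')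
          intro e2
          apply e
          rw [← add_cancel' c c', e2, zero_add]
    · intro h1; exact Or.inr (Or.inr ⟨b, c, hb, hc, h0, rfl, h1⟩)
  let A : Finset V := H ∪ (B ×ˢ H).image (fun q => q.1 + q.2) ∪
    (B ×ˢ H).image (fun q => q.1 + s + q.2)
  obtain ⟨x, _, hx⟩ := hU A P
  have m1 : ∀ c ∈ H, c ∈ A := fun c hc => by simp [A, hc]
  have m2 : ∀ b ∈ B, ∀ c ∈ H, b + c ∈ A := fun b hb c hc => by
    simp only [A, Finset.mem_union, Finset.mem_image, Finset.mem_product, Prod.exists]
    exact Or.inl (Or.inr ⟨b, c, ⟨hb, hc⟩, rfl⟩)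
  have m3 : ∀ b ∈ B, ∀ c ∈ H, b + s + c ∈ A := fun b hb c hc => by
    simp only [A, Finset.mem_union, Finset.mem_image, Finset.mem_product, Prod.exists]
    exact Or.inr ⟨b, c, ⟨hb, hc⟩, rfl⟩
  refine ⟨x, fun c hc => (hx c (m1 c hc)).trans (p1 c hc), fun b hb => ⟨fun c hc h0 => ⟨?_, ?_⟩,
    ?_⟩⟩
  · rw [add_assoc]
    exact (hx _ (m2 b hb c hc)).trans (p3 b c (hB b hb) hc h0)
  · rw [add_assoc]
    exact (hx _ (m3 b hb c hc)).trans (p3 (b + s) c (tt_shift h (hB b hb)) hc h0)
  · have q1 := (hx _ (m2 b hb 0 h.zero))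
    have q2 := (hx _ (m3 b hb 0 h.zero))
    rw [add_zero] at q1 q2
    rw [q1, q2, p2 b (hB b hb), p2 (b + s) (tt_shift h (hB b hb)), add_cancel']
    have hne : enc b ≠ enc (b + s) := by
      intro e
      have := henc e
      exact hs0 (by simpa using this.symm)
    omega

/-- subgroups of the vectors with bounded support -/
def WM (M : ℕ) : Set V := {v | ∀ i, M ≤ i → v i = 0}

theorem wm_finite (M : ℕ) : (WM M).Finite := by
  have : Set.InjOn (fun (v : V) (i : Fin M) => v i) (WM M) := by
    intro a ha b hb hab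
    ext i
    by_cases hi : i < M
    · exact congrFun hab ⟨i, hi⟩
    · rw [ha i (not_lt.1 hi), hb i (not_lt.1 hi)]
  exact Set.Finite.of_finite_image (Set.toFinite _) this

theorem exists_wm (A : Finset V) : ∃ M, ∀ a ∈ A, a ∈ WM M := by
  classical
  refine ⟨(A.biUnion fun a => a.support).sup id + 1, fun a ha i hi => ?_⟩
  by_contra h
  have h1 : i ∈ A.biUnion fun a => a.support :=
    Finset.mem_biUnion.2 ⟨a, ha, Finsupp.mem_support_iff.2 h⟩
  have h2 : i ≤ (A.biUnion fun a => a.support).sup id := Finset.le_sup (f := id) h1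
  omega

theorem wm_add {M : ℕ} {a b : V} (ha : a ∈ WM M) (hb : b ∈ WM M) : a + b ∈ WM M := by
  intro i hi
  rw [Finsupp.add_apply, ha i hi, hb i hi, add_zero]

/-- extension of the map that is the identity on `K` and maps `b` to `b'` -/
theorem exists_aut {U : V → Prop} (hH : Homog U) (K : Set V) (hK : K.Finite) (h0 : (0 : V) ∈ K)
    (hadd : ∀ a ∈ K, ∀ c ∈ K, a + c ∈ K) (b b' : V) (i : ℕ) (hi : ∀ a ∈ K, a i = 0)
    (hbi : b i = 1) (hb' : b' ∉ K) (hp : ∀ c ∈ K, (U (b' + c) ↔ U (b + c))) :
    ∃ h : V ≃+ V, (∀ v, U (h v) ↔ U v) ∧ (∀ a ∈ K, h a = a) ∧ h b = b' := by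
  let A : AddSubgroup V :=
    { carrier := {v | v ∈ K ∨ v + b ∈ K}
      zero_mem' := Or.inl h0
      add_mem' := by
        rintro a c (ha | ha) (hc | hc)
        · exact Or.inl (hadd _ ha _ hc)
        · right
          have : a + c + b = a + (c + b) := by abel
          rw [this]; exact hadd _ ha _ hc
        · right
          have : a + c + b = (a + b) + c := by abel
          rw [this]; exact hadd _ ha _ hc
        · left
          have : a + c = (a + b) + (c + b) := by
            have : (a + b) + (c + b) = a + c + (b + b) := by abel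
            rw [this, dbl, add_zero]
          rw [this]; exact hadd _ ha _ hc
      neg_mem' := by
        intro a ha
        rw [neg_eq]; exact ha }
  have hA : ∀ v, v ∈ A ↔ v ∈ K ∨ v + b ∈ K := fun v => Iff.rfl
  let φ : V →+ V :=
    { toFun := fun v => v + (v i) • (b + b')
      map_zero' := by simp
      map_add' := by
        intro x y
        rw [Finsupp.add_apply, add_smul]
        abel }
  have hφ : ∀ v, φ v = v + (v i) • (b + b') := fun v => rfl
  have f1 : ∀ a ∈ K, φ a = a := by
    intro a ha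
    rw [hφ, hi a ha, zero_smul, add_zero]
  have f2 : ∀ a, a + b ∈ K → a i = 1 := by
    intro a ha
    have := hi _ ha
    rw [Finsupp.add_apply, hbi] at this
    have h2 : a i = a i + 1 + 1 := by
      rw [add_assoc, CharTwo.add_self_eq_zero, add_zero]
    rw [h2, this, zero_add]
  have f3 : ∀ a, a + b ∈ K → φ a = (a + b) + b' := by
    intro a ha
    rw [hφ, f2 a ha, one_smul]
    abel
  have hinj : Function.Injective (φ.comp A.subtype) := by
    rw [injective_iff_map_eq_zero]
    rintro ⟨a, ha⟩ h1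
    have h1' : φ a = 0 := h1
    rcases (hA a).1 ha with h2 | h2
    · rw [f1 a h2] at h1'
      exact Subtype.ext h1'
    · exfalso
      rw [f3 a h2] at h1'
      apply hb'
      have : b' = a + b := by
        rw [← add_cancel' b' (a + b), add_comm b' (a + b), h1', zero_add]
      rw [this]; exact h2
  have hfin : Finite A := by
    have : ((A : Set V)).Finite := by
      refine (hK.union (hK.image fun v => v + b)).subset ?_
      intro v hv
      rcases (hA v).1 hv with h2 | h2
      · exact Or.inl h2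
      · exact Or.inr ⟨v + b, h2, add_cancel' v b⟩
    exact this.to_subtype
  have hUU : ∀ a : A, U (φ.comp A.subtype a) ↔ U a := by
    rintro ⟨a, ha⟩
    change U (φ a) ↔ U a
    rcases (hA a).1 ha with h2 | h2
    · rw [f1 a h2]
    · rw [f3 a h2, add_comm, hp _ h2]
      have : b + (a + b) = a := by
        rw [add_comm, add_cancel']
      rw [this]
  obtain ⟨h, h1, h2⟩ := hH A (φ.comp A.subtype) hfin hinj hUU
  refine ⟨h, h1, fun a ha => ?_, ?_⟩
  · have := h2 ⟨a, (hA a).2 (Or.inl ha)⟩
    exact this.trans (f1 a ha)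
  · have hbA : b ∈ A := (hA b).2 (Or.inr (by rw [dbl]; exact h0))
    have := h2 ⟨b, hbA⟩
    refine this.trans ?_
    change φ b = b'
    rw [f3 b (by rw [dbl]; exact h0), dbl, zero_add]

end Pool.Agent.H62R3.Nas
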