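import Pool.Agent.H839R3.Nas.Stmts

set_option autoImplicit false

/-! Definability calculus without parameters for `LSet` (helper62, project H839NAS). -/

namespace Pool.Agent.H62R3.Nas

open FirstOrder FirstOrder.Language
open Pool.Agent.Helper672.Plain (LSet Sym Mem IsPair IsOrdPair Zermelo)
open Pool.Agent.H635Amen (ZF)
open Pool.Agent.H310Cards
open Pool.Agent.H310Top
open Pool.Agent.H839R3.Nas

universe u

variable {N : Type u} [LSet.Structure N] {ι : Type}

theorem dz_not {p : (ι → N) → Prop} (hp : DZ p) : DZ (fun v => ¬ p v) := by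
  have h := Set.Definable.compl hp
  exact h

theorem dz_and {p q : (ι → N) → Prop} (hp : DZ p) (hq : DZ q) : DZ (fun v => p v ∧ q v) := by
  have h := Set.Definable.inter hp hq
  exact h

theorem dz_or {p q : (ι → N) → Prop} (hp : DZ p) (hq : DZ q) : DZ (fun v => p v ∨ q v) := by
  have h := Set.Definable.union hp hq
  exact h

theorem dz_imp {p q : (ι → N) → Prop} (hp : DZ p) (hq : DZ q) : DZ (fun v => p v → q v) := by
  have h := dz_or (dz_not hp) hq
  refine Eq.mp (congrArg DZ ?_) h
  funext v
  exact propext imp_iff_not_or.symm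

theorem dz_iff {p q : (ι → N) → Prop} (hp : DZ p) (hq : DZ q) : DZ (fun v => (p v ↔ q v)) := by
  have h := dz_and (dz_imp hp hq) (dz_imp hq hp)
  refine Eq.mp (congrArg DZ ?_) h
  funext v
  exact propext iff_iff_implies_and_implies.symm

theorem dz_ex {p : (ι → N) → N → Prop}
    (h : DZ (fun w : ι ⊕ Unit → N => p (fun i => w (Sum.inl i)) (w (Sum.inr ())))) :
    DZ (fun v => ∃ x, p v x) := by
  have h1 := Set.Definable.exists_of_finite (β := Unit) h
  refine Eq.mp (congrArg DZ ?_) h1
  funext v
  refine propext ⟨fun ⟨a, ha⟩ => ⟨a (), ha⟩, fun ⟨x, hx⟩ => ⟨fun _ => x, hx⟩⟩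

theorem dz_all {p : (ι → N) → N → Prop}
    (h : DZ (fun w : ι ⊕ Unit → N => p (fun i => w (Sum.inl i)) (w (Sum.inr ())))) :
    DZ (fun v => ∀ x, p v x) := by
  have h1 := Set.Definable.forall_of_finite (β := Unit) h
  refine Eq.mp (congrArg DZ ?_) h1
  funext v
  refine propext ⟨fun h2 x => h2 fun _ => x, fun h2 a => h2 (a ())⟩

theorem dz_mem (i j : ι) : DZ (fun v : ι → N => Mem (v i) (v j)) := by
  refine ⟨Relations.formula₂ (((LSet.lhomWithConstants (∅ : Set N)).onRelation
    (Sym.mem : LSet.Relations 2))) (Term.var i) (Term.var j), ?_⟩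
  ext v
  simp only [Set.mem_ofPred_eq, Formula.realize_rel₂, Term.realize_var]
  rfl

theorem dz_eq (i j : ι) : DZ (fun v : ι → N => v i = v j) := by
  refine ⟨Term.equal (Term.var i) (Term.var j), ?_⟩
  ext v
  simp only [Set.mem_ofPred_eq, Formula.realize_equal, Term.realize_var]

theorem dz_const (P : Prop) : DZ (fun _ : ι → N => P) := by
  by_cases h : P
  · have : {v : ι → N | P} = Set.univ := by ext; simp [h]
    unfold DZ
    rw [this]
    exact Set.definable_univ
  · have : {v : ι → N | P} = ∅ := by ext; simp [h]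
    unfold DZ
    rw [this]
    exact Set.definable_empty

theorem dz_finset {α : Type} (s : Finset α) {p : α → (ι → N) → Prop}
    (h : ∀ a ∈ s, DZ (p a)) : DZ (fun v => ∀ a ∈ s, p a v) := by
  classical
  induction s using Finset.induction_on with
  | empty =>
    refine Eq.mp (congrArg DZ ?_) (dz_const (N := N) (ι := ι) True)
    funext v
    simp
  | insert a s ha ih =>
    have h1 := dz_and (h a (Finset.mem_insert_self a s))
      (ih fun b hb => h b (Finset.mem_insert_of_mem hb))
    refine Eq.mp (congrArg DZ ?_) h1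
    funext v
    simp [Finset.forall_mem_insert]

theorem dz_pair (i j k : ι) : DZ (fun v : ι → N => IsPair (v i) (v j) (v k)) := by
  unfold IsPair
  exact dz_all (dz_iff (dz_mem _ (Sum.inl i)) (dz_or (dz_eq _ (Sum.inl j)) (dz_eq _ (Sum.inl k))))

theorem dz_ordPair (i j k : ι) : DZ (fun v : ι → N => IsOrdPair (v i) (v j) (v k)) := by
  unfold IsOrdPair
  refine dz_ex (dz_ex ?_)
  exact dz_and (dz_pair (Sum.inl (Sum.inr ())) (Sum.inl (Sum.inl j)) (Sum.inl (Sum.inl j)))
    (dz_and (dz_pair (Sum.inr ()) (Sum.inl (Sum.inl j)) (Sum.inl (Sum.inl k)))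
      (dz_pair (Sum.inl (Sum.inl i)) (Sum.inl (Sum.inr ())) (Sum.inr ())))

theorem dz_app (r x y : ι) : DZ (fun v : ι → N => App (v r) (v x) (v y)) := by
  unfold App
  refine dz_ex ?_
  exact dz_and (dz_ordPair (Sum.inr ()) (Sum.inl x) (Sum.inl y)) (dz_mem (Sum.inr ()) (Sum.inl r))

/-- separation for classes that are definable from the values of `v` -/
theorem sep [ZF N] {p : (ι ⊕ Unit → N) → Prop} (hp : DZ p) (v : ι → N) (x : N) :
    ∃ y, ∀ z, Mem z y ↔ Mem z x ∧ p (Sum.elim v fun _ => z) := by
  have hp' : (Set.univ : Set N).Definable LSet {w | p w} := Set.Definable.mono hp (Set.subset_univ _)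
  obtain ⟨φ, hφ⟩ := hp'
  have h1 : (Set.univ : Set N).Definable₁ LSet {z | p (Sum.elim v fun _ => z)} := by
    refine ⟨φ.subst (Sum.elim (fun i => (LSet.con (⟨v i, Set.mem_univ (v i)⟩ :
      (Set.univ : Set N))).term) fun _ => Term.var 0), ?_⟩
    ext w
    have h2 : ∀ w' : ι ⊕ Unit → N, p w' ↔ φ.Realize w' := fun w' => by
      have := Set.ext_iff.1 hφ w'
      exact this
    simp only [Set.mem_ofPred_eq]
    rw [h2, Formula.Realize, Formula.Realize, BoundedFormula.realize_subst]
    have : (fun a => (Sum.elim (fun i => (LSet.con (⟨v i, Set.mem_univ (v i)⟩ :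
      (Set.univ : Set N))).term) (fun _ => Term.var 0) a).realize w) =
        (Sum.elim v fun _ => w 0 : ι ⊕ Unit → N) := by
      funext a
      cases a with
      | inl i => simp [Term.realize_constants]
      | inr i => simp
    rw [this]
  exact Zermelo.separation _ h1 x

end Pool.Agent.H62R3.Nas
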