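import Pool.Agent.H62R3.Nas.Def

set_option autoImplicit false

/-! Semantics of the basic predicates (helper62, project H839NAS). -/

namespace Pool.Agent.H62R3.Nas

open FirstOrder FirstOrder.Language
open Pool.Agent.Helper672.Plain (LSet Sym Mem IsPair IsOrdPair Zermelo)
open Pool.Agent.H635Amen (ZF)
open Pool.Agent.H310Cards
open Pool.Agent.H310Top
open Pool.Agent.H839R3.Nas

universe u

variable {N : Type u} [LSet.Structure N] {ι : Type}

/-! ### Pairs -/

theorem exists_ordPair [ZF N] (x y : N) : ∃ q : N, IsOrdPair q x y := by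
  obtain ⟨s, hs⟩ := Zermelo.pairing x x
  obtain ⟨d, hd⟩ := Zermelo.pairing x y
  obtain ⟨q, hq⟩ := Zermelo.pairing s d
  exact ⟨q, s, d, hs, hd, hq⟩

theorem isPair_unique [ZF N] {p p' x y : N} (h : IsPair p x y) (h' : IsPair p' x y) : p = p' :=
  Zermelo.ext _ _ fun z => (h z).trans (h' z).symm

theorem ordPair_unique [ZF N] {q q' x y : N} (h : IsOrdPair q x y) (h' : IsOrdPair q' x y) :
    q = q' := by
  obtain ⟨s, d, h1, h2, h3⟩ := h
  obtain ⟨s', d', h1', h2', h3'⟩ := h'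
  have e1 := isPair_unique h1 h1'
  have e2 := isPair_unique h2 h2'
  subst e1 e2
  exact isPair_unique h3 h3'

theorem ordPair_inj {q x y x' y' : N} (h : IsOrdPair q x y) (h' : IsOrdPair q x' y') :
    x = x' ∧ y = y' := by
  obtain ⟨s, d, h1, h2, h3⟩ := h
  obtain ⟨s', d', h1', h2', h3'⟩ := h'
  unfold IsPair at h1 h2 h3 h1' h2' h3'
  -- membership
  have ms : s = s' ∨ s = d' := (h3' s).1 ((h3 s).2 (Or.inl rfl))
  have md : d = s' ∨ d = d' := (h3' d).1 ((h3 d).2 (Or.inr rfl))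
  have ms' : s' = s ∨ s' = d := (h3 s').1 ((h3' s').2 (Or.inl rfl))
  have md' : d' = s ∨ d' = d := (h3 d').1 ((h3' d').2 (Or.inr rfl))
  have hx : x = x' := by
    rcases ms with h | h
    · subst h
      have := (h1' x).1 ((h1 x).2 (Or.inl rfl))
      tauto
    · subst h
      have := (h1 x').1 ((h2' x').2 (Or.inl rfl))
      tauto
  subst hx
  refine ⟨rfl, ?_⟩
  -- y is in d, y' in d'
  rcases md with h | h
  · subst h
    have e1 : y = x := by
      have := (h1' y).1 ((h2 y).2 (Or.inr rfl))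
      tauto
    subst e1
    rcases md' with h5 | h5
    · subst h5
      have := (h1 y').1 ((h2' y').2 (Or.inr rfl))
      tauto
    · subst h5
      have := (h2 y').1 ((h2' y').2 (Or.inr rfl))
      tauto
  · subst h
    have a1 := (h2' y).1 ((h2 y).2 (Or.inr rfl))
    have a2 := (h2 y').1 ((h2' y').2 (Or.inr rfl))
    rcases a1 with a1 | a1
    · rcases a2 with a2 | a2
      · rw [a1, a2]
      · exact a2.symm
    · exact a1

/-! ### The addition and the generic set -/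

/-- `((x, y), z)` is in `Ad` -/
def IsSum (Ad x y z : N) : Prop := ∃ q p, IsOrdPair q x y ∧ IsOrdPair p q z ∧ Mem p Ad

theorem dz_sum (a x y z : ι) : DZ (fun v : ι → N => IsSum (v a) (v x) (v y) (v z)) := by
  unfold IsSum
  refine dz_ex (dz_ex ?_)
  exact dz_and (dz_ordPair (Sum.inl (Sum.inr ())) (Sum.inl (Sum.inl x)) (Sum.inl (Sum.inl y)))
    (dz_and (dz_ordPair (Sum.inr ()) (Sum.inl (Sum.inr ())) (Sum.inl (Sum.inl z)))
      (dz_mem (Sum.inr ()) (Sum.inl (Sum.inl a))))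

variable {U : V → Prop} (S : SM U N)

theorem sum_iff (a b : V) (z : N) : IsSum S.Ad (S.pt a) (S.pt b) z ↔ z = S.pt (a + b) := by
  have := S.zf
  constructor
  · rintro ⟨q, p, h1, h2, h3⟩
    obtain ⟨a', b', q', h4, h5⟩ := (S.mem_Ad p).1 h3
    obtain ⟨e1, e2⟩ := ordPair_inj h2 h5
    subst e1
    obtain ⟨e3, e4⟩ := ordPair_inj h1 h4
    rw [e2, S.inj e3, S.inj e4]
  · rintro rfl
    obtain ⟨q, hq⟩ := exists_ordPair (S.pt a) (S.pt b)
    obtain ⟨p, hp⟩ := exists_ordPair q (S.pt (a + b))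
    exact ⟨q, p, hq, hp, (S.mem_Ad p).2 ⟨a, b, q, hq, hp⟩⟩

theorem mem_Us_pt (a : V) : Mem (S.pt a) S.Us ↔ U a := by
  rw [S.mem_Us]
  constructor
  · rintro ⟨b, hb, e⟩
    rw [S.inj e]; exact hb
  · intro h
    exact ⟨a, h, rfl⟩

/-- `x` has the pattern `g` over `F` -/
def Pt1 (Ad Us : N) (P : V → N) (F : Finset V) (g : V → Prop) (x : N) : Prop :=
  ∀ c ∈ F, ((∀ z, IsSum Ad x (P c) z → Mem z Us) ↔ g c)

theorem dz_pt1 (ad us : ι) (P : V → ι) (F : Finset V) (g : V → Prop) (x : ι) :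
    DZ (fun v : ι → N => Pt1 (v ad) (v us) (fun c => v (P c)) F g (v x)) := by
  unfold Pt1
  refine dz_finset F fun c _ => dz_iff (dz_all (dz_imp ?_ ?_)) (dz_const _)
  · exact dz_sum (Sum.inl ad) (Sum.inl x) (Sum.inl (P c)) (Sum.inr ())
  · exact dz_mem (Sum.inr ()) (Sum.inl us)

theorem pt1_iff (F : Finset V) (g : V → Prop) (a : V) :
    Pt1 S.Ad S.Us S.pt F g (S.pt a) ↔ ∀ c ∈ F, (U (a + c) ↔ g c) := by
  unfold Pt1
  refine forall₂_congr fun c _ => ?_
  have : (∀ z, IsSum S.Ad (S.pt a) (S.pt c) z → Mem z S.Us) ↔ U (a + c) := by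
    constructor
    · intro h
      exact (mem_Us_pt S _).1 (h _ ((sum_iff S a c _).2 rfl))
    · intro h z hz
      rw [(sum_iff S a c z).1 hz]
      exact (mem_Us_pt S _).2 h
  rw [this]

theorem pt1_congr {Ad Us : N} {P P' : V → N} {F : Finset V} (h : ∀ c ∈ F, P c = P' c)
    (g : V → Prop) (x : N) : Pt1 Ad Us P F g x ↔ Pt1 Ad Us P' F g x := by
  unfold Pt1
  refine forall₂_congr fun c hc => ?_
  rw [h c hc]

/-! ### Hitting a set of the form `PP` -/

/-- the points with pattern `f` over `F` and over `w + F`, read at the place `b` -/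
def PP (U : V → Prop) (F : Finset V) (w : V) (f : V → Prop) (b : V) : Set V :=
  {a | (∀ h ∈ F, (U (a + h) ↔ f h)) ∧ ∀ h ∈ F, (U (a + b + h) ↔ f (w + h))}

/-- the set `O` meets the image of `PP` (read at `u`) -/
def Hit (Ad Us : N) (P : V → N) (F : Finset V) (w : V) (f : V → Prop) (j O u : N) : Prop :=
  ∃ x y, App j x y ∧ Mem y O ∧ Pt1 Ad Us P F f x ∧
    ∀ x', IsSum Ad x u x' → Pt1 Ad Us P F (fun h => f (w + h)) x'

theorem dz_hit (ad us : ι) (P : V → ι) (F : Finset V) (w : V) (f : V → Prop) (j O u : ι) :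
    DZ (fun v : ι → N => Hit (v ad) (v us) (fun c => v (P c)) F w f (v j) (v O) (v u)) := by
  unfold Hit
  refine dz_ex (dz_ex (dz_and ?_ (dz_and ?_ (dz_and ?_ ?_))))
  · exact dz_app (Sum.inl (Sum.inl j)) (Sum.inl (Sum.inr ())) (Sum.inr ())
  · exact dz_mem (Sum.inr ()) (Sum.inl (Sum.inl O))
  · exact dz_pt1 (Sum.inl (Sum.inl ad)) (Sum.inl (Sum.inl us)) (fun c => Sum.inl (Sum.inl (P c)))
      F f (Sum.inl (Sum.inr ()))
  · refine dz_all (dz_imp ?_ ?_)
    · exact dz_sum (Sum.inl (Sum.inl (Sum.inl ad))) (Sum.inl (Sum.inl (Sum.inr ())))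
        (Sum.inl (Sum.inl (Sum.inl u))) (Sum.inr ())
    · exact dz_pt1 (Sum.inl (Sum.inl (Sum.inl ad))) (Sum.inl (Sum.inl (Sum.inl us)))
        (fun c => Sum.inl (Sum.inl (Sum.inl (P c)))) F (fun h => f (w + h)) (Sum.inr ())

theorem hit_congr {Ad Us : N} {P P' : V → N} {F : Finset V} (h : ∀ c ∈ F, P c = P' c)
    (w : V) (f : V → Prop) (j O u : N) :
    Hit Ad Us P F w f j O u ↔ Hit Ad Us P' F w f j O u := by
  unfold Hit
  simp only [pt1_congr h]

theorem hit_mono {Ad Us : N} {P : V → N} {F : Finset V} {w : V} {f : V → Prop} {j O O' u : N}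
    (h : ∀ z, Mem z O → Mem z O') (h1 : Hit Ad Us P F w f j O u) :
    Hit Ad Us P F w f j O' u := by
  obtain ⟨x, y, h2, h3, h4⟩ := h1
  exact ⟨x, y, h2, h _ h3, h4⟩

variable {S}

theorem app_dom {j k : N} (hj : IsInj j S.D k) {x y : N} (h : App j x y) :
    ∃ a, x = S.pt a := by
  obtain ⟨q, hq, hqj⟩ := h
  obtain ⟨x', y', hx', _, hq'⟩ := hj.1.1 q hqj
  rw [(ordPair_inj hq hq').1]
  exact (S.mem_D x').1 hx'

theorem app_cod {j k : N} (hj : IsInj j S.D k) {x y : N} (h : App j x y) : Mem y k := by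
  obtain ⟨q, hq, hqj⟩ := h
  obtain ⟨x', y', _, hy', hq'⟩ := hj.1.1 q hqj
  rw [(ordPair_inj hq hq').2]
  exact hy'

theorem app_ex {j k : N} (hj : IsInj j S.D k) (a : V) : ∃ y, App j (S.pt a) y := by
  obtain ⟨y, hy, _⟩ := hj.1.2 (S.pt a) ((S.mem_D _).2 ⟨a, rfl⟩)
  exact ⟨y, hy⟩

variable (S)

theorem hit_iff {j k : N} (hj : IsInj j S.D k) (F : Finset V) (w : V) (f : V → Prop) (O : N)
    (b : V) : Hit S.Ad S.Us S.pt F w f j O (S.pt b) ↔
      ∃ a ∈ PP U F w f b, ∃ y, App j (S.pt a) y ∧ Mem y O := by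
  constructor
  · rintro ⟨x, y, h1, h2, h3, h4⟩
    obtain ⟨a, rfl⟩ := app_dom hj h1
    refine ⟨a, ⟨(pt1_iff S F f a).1 h3, ?_⟩, y, h1, h2⟩
    have h5 := h4 _ ((sum_iff S a b _).2 rfl)
    exact (pt1_iff S F _ (a + b)).1 h5
  · rintro ⟨a, ⟨h3, h4⟩, y, h1, h2⟩
    refine ⟨S.pt a, y, h1, h2, (pt1_iff S F f a).2 h3, ?_⟩
    intro x' hx'
    rw [(sum_iff S a b x').1 hx']
    exact (pt1_iff S F _ (a + b)).2 h4

/-- `q` is in the closure of the image of `PP` -/
def Qc (Ad Us : N) (P : V → N) (F : Finset V) (w : V) (f : V → Prop) (k t j q u : N) : Prop :=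
  Mem q k ∧ ∀ O, Mem O t → Mem q O → Hit Ad Us P F w f j O u

theorem dz_qc (ad us : ι) (P : V → ι) (F : Finset V) (w : V) (f : V → Prop) (k t j q u : ι) :
    DZ (fun v : ι → N => Qc (v ad) (v us) (fun c => v (P c)) F w f (v k) (v t) (v j) (v q)
      (v u)) := by
  unfold Qc
  refine dz_and (dz_mem q k) (dz_all (dz_imp ?_ (dz_imp ?_ ?_)))
  · exact dz_mem (Sum.inr ()) (Sum.inl t)
  · exact dz_mem (Sum.inl q) (Sum.inr ())
  · exact dz_hit (Sum.inl ad) (Sum.inl us) (fun c => Sum.inl (P c)) F w f (Sum.inl j)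
      (Sum.inr ()) (Sum.inl u)

theorem qc_congr {Ad Us : N} {P P' : V → N} {F : Finset V} (h : ∀ c ∈ F, P c = P' c)
    (w : V) (f : V → Prop) (k t j q u : N) :
    Qc Ad Us P F w f k t j q u ↔ Qc Ad Us P' F w f k t j q u := by
  unfold Qc
  simp only [hit_congr h]

theorem qc_iff {j k t : N} (hj : IsInj j S.D k) (F : Finset V) (w : V) (f : V → Prop) (q : N)
    (b : V) : Qc S.Ad S.Us S.pt F w f k t j q (S.pt b) ↔ InCl S k t j (PP U F w f b) q := by
  unfold Qc InCl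
  refine and_congr_right fun _ => ?_
  refine forall₃_congr fun O _ _ => ?_
  exact hit_iff S hj F w f O b

end Pool.Agent.H62R3.Nas
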