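import Pool.Agent.H62R3.Nas.Sem
import Pool.Agent.H62R3.Nas.Comb

set_option autoImplicit false

/-! TaskTop1 of project H839NAS (helper62). -/

namespace Pool.Agent.H62R3.Nas

open FirstOrder FirstOrder.Language
open Pool.Agent.Helper672.Plain (LSet Sym Mem IsPair IsOrdPair Zermelo)
open Pool.Agent.H635Amen (ZF)
open Pool.Agent.H310Cards
open Pool.Agent.H310Top
open Pool.Agent.H839R3.Nas

universe u

variable {N : Type u} [LSet.Structure N] {ι : Type}

/-- names of the parameters -/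
inductive Ix : Type
  | ad | us | d | k | t | j | q | u
  | pt (a : V)

/-- values of the parameters -/
def val {U : V → Prop} (S : SM U N) (k t j q u : N) (h : V → V) : Ix → N
  | Ix.ad => S.Ad
  | Ix.us => S.Us
  | Ix.d => S.D
  | Ix.k => k
  | Ix.t => t
  | Ix.j => j
  | Ix.q => q
  | Ix.u => u
  | Ix.pt a => S.pt (h a)

/-- `O` is in the cover -/
def Cov (Ad Us D : N) (P : V → N) (H F : Finset V) (s w : V) (g f f' : V → Prop) (j O : N) :
    Prop :=
  ∃ x x', Mem x D ∧ (∀ c ∈ F, ¬ x = P c) ∧ Pt1 Ad Us P F g x ∧ IsSum Ad x (P s) x' ∧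
    (¬ Hit Ad Us P H w f j O x ∨ ¬ Hit Ad Us P H w f' j O x') ∧
    (¬ Hit Ad Us P H w f' j O x ∨ ¬ Hit Ad Us P H w f j O x')

theorem dz_cov (ad us d : ι) (P : V → ι) (H F : Finset V) (s w : V) (g f f' : V → Prop)
    (j O : ι) : DZ (fun v : ι → N => Cov (v ad) (v us) (v d) (fun c => v (P c)) H F s w g f f'
      (v j) (v O)) := by
  unfold Cov
  refine dz_ex (dz_ex (dz_and ?_ (dz_and ?_ (dz_and ?_ (dz_and ?_ (dz_and ?_ ?_))))))
  · exact dz_mem (Sum.inl (Sum.inr ())) (Sum.inl (Sum.inl d))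
  · exact dz_finset F fun c _ => dz_not (dz_eq (Sum.inl (Sum.inr ())) (Sum.inl (Sum.inl (P c))))
  · exact dz_pt1 (Sum.inl (Sum.inl ad)) (Sum.inl (Sum.inl us)) (fun c => Sum.inl (Sum.inl (P c)))
      F g (Sum.inl (Sum.inr ()))
  · exact dz_sum (Sum.inl (Sum.inl ad)) (Sum.inl (Sum.inr ())) (Sum.inl (Sum.inl (P s)))
      (Sum.inr ())
  · refine dz_or (dz_not ?_) (dz_not ?_)
    · exact dz_hit (Sum.inl (Sum.inl ad)) (Sum.inl (Sum.inl us))
        (fun c => Sum.inl (Sum.inl (P c))) H w f (Sum.inl (Sum.inl j)) (Sum.inl (Sum.inl O))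
        (Sum.inl (Sum.inr ()))
    · exact dz_hit (Sum.inl (Sum.inl ad)) (Sum.inl (Sum.inl us))
        (fun c => Sum.inl (Sum.inl (P c))) H w f' (Sum.inl (Sum.inl j)) (Sum.inl (Sum.inl O))
        (Sum.inr ())
  · refine dz_or (dz_not ?_) (dz_not ?_)
    · exact dz_hit (Sum.inl (Sum.inl ad)) (Sum.inl (Sum.inl us))
        (fun c => Sum.inl (Sum.inl (P c))) H w f' (Sum.inl (Sum.inl j)) (Sum.inl (Sum.inl O))
        (Sum.inl (Sum.inr ()))
    · exact dz_hit (Sum.inl (Sum.inl ad)) (Sum.inl (Sum.inl us))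
        (fun c => Sum.inl (Sum.inl (P c))) H w f (Sum.inl (Sum.inl j)) (Sum.inl (Sum.inl O))
        (Sum.inr ())

section claim

variable {U : V → Prop} (S : SM U N) {k t j : N} {H F : Finset V} {s τ w : V}
  {f f' : V → Prop}

theorem cov_iff (O : N) :
    Cov S.Ad S.Us S.D S.pt H F s w (gg U H s τ w) f f' j O ↔ ∃ b, TT U H F s τ w b ∧
      (¬ Hit S.Ad S.Us S.pt H w f j O (S.pt b) ∨
        ¬ Hit S.Ad S.Us S.pt H w f' j O (S.pt (b + s))) ∧
      (¬ Hit S.Ad S.Us S.pt H w f' j O (S.pt b) ∨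
        ¬ Hit S.Ad S.Us S.pt H w f j O (S.pt (b + s))) := by
  constructor
  · rintro ⟨x, x', h1, h2, h3, h4, h5, h6⟩
    obtain ⟨b, rfl⟩ := (S.mem_D x).1 h1
    rw [sum_iff] at h4
    subst h4
    refine ⟨b, ⟨fun hb => h2 b hb rfl, (pt1_iff S F _ b).1 h3⟩, h5, h6⟩
  · rintro ⟨b, ⟨h1, h2⟩, h5, h6⟩
    refine ⟨S.pt b, S.pt (b + s), (S.mem_D _).2 ⟨b, rfl⟩, ?_, (pt1_iff S F _ b).2 h2,
      (sum_iff S b s _).2 rfl, h5, h6⟩
    intro c hc e
    exact h1 (S.inj e ▸ hc)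

theorem exists_not_hit (hc : IsCompactification k t j S.D) {q : N} (hq : Mem q k)
    {g : V → Prop} {b : V} (h : ¬ InCl S k t j (PP U H w g b) q) :
    ∃ O, Mem O t ∧ Mem q O ∧ ¬ Hit S.Ad S.Us S.pt H w g j O (S.pt b) := by
  rw [← qc_iff S hc.inj] at h
  unfold Qc at h
  push Not at h
  obtain ⟨O, h1, h2, h3⟩ := h hq
  exact ⟨O, h1, h2, h3⟩

theorem exists_inter (hc : IsCompactification k t j S.D) {O O' q : N} (h : Mem O t)
    (h' : Mem O' t) (hq : Mem q O) (hq' : Mem q O') :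
    ∃ O'', Mem O'' t ∧ Mem q O'' ∧ (∀ z, Mem z O'' → Mem z O) ∧ ∀ z, Mem z O'' → Mem z O' := by
  have := S.zf
  obtain ⟨y, hy⟩ := sep (N := N) (ι := Unit)
    (p := fun v => Mem (v (Sum.inr ())) (v (Sum.inl ()))) (dz_mem _ _) (fun _ => O') O
  simp only [Sum.elim_inl, Sum.elim_inr] at hy
  exact ⟨y, hc.top.inter _ _ _ h h' hy, (hy q).2 ⟨hq, hq'⟩, fun z hz => ((hy z).1 hz).1,
    fun z hz => ((hy z).1 hz).2⟩

theorem claim (hU : Ext U) (hc : IsCompactification k t j S.D) (hD : Dom H s τ F)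
    (hw : w ∉ H) (hff : ∀ v, v ≠ w → (f v ↔ f' v)) (hne : ¬ (f w ↔ f' w)) :
    ∃ q, Mem q k ∧ ∀ b, TT U H F s τ w b →
      (InCl S k t j (PP U H w f b) q ∧ InCl S k t j (PP U H w f' (b + s)) q) ∨
      (InCl S k t j (PP U H w f' b) q ∧ InCl S k t j (PP U H w f (b + s)) q) := by
  classical
  have := S.zf
  by_contra hcon
  push Not at hcon
  -- the cover
  obtain ⟨c, hcv⟩ := sep (N := N) (ι := Ix) (p := fun v => Cov (v (Sum.inl Ix.ad))
    (v (Sum.inl Ix.us)) (v (Sum.inl Ix.d)) (fun a => v (Sum.inl (Ix.pt a))) H F s w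
    (gg U H s τ w) f f' (v (Sum.inl Ix.j)) (v (Sum.inr ())))
    (dz_cov _ _ _ (fun a => Sum.inl (Ix.pt a)) H F s w _ f f' _ _) (val S k t j k k id) t
  have hcv' : ∀ O, Mem O c ↔ Mem O t ∧ Cov S.Ad S.Us S.D S.pt H F s w (gg U H s τ w) f f' j O :=
    hcv
  obtain ⟨c', hfin, hsub, hcov⟩ := hc.compact c (fun O hO => ((hcv' O).1 hO).1) (by
    intro z hz
    obtain ⟨b, hb, h1, h2⟩ := hcon z hz
    have g1 : ∃ O, Mem O t ∧ Mem z O ∧ (¬ Hit S.Ad S.Us S.pt H w f j O (S.pt b) ∨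
        ¬ Hit S.Ad S.Us S.pt H w f' j O (S.pt (b + s))) := by
      by_cases h3 : InCl S k t j (PP U H w f b) z
      · obtain ⟨O, a1, a2, a3⟩ := exists_not_hit S hc hz (h1 h3)
        exact ⟨O, a1, a2, Or.inr a3⟩
      · obtain ⟨O, a1, a2, a3⟩ := exists_not_hit S hc hz h3
        exact ⟨O, a1, a2, Or.inl a3⟩
    have g2 : ∃ O, Mem O t ∧ Mem z O ∧ (¬ Hit S.Ad S.Us S.pt H w f' j O (S.pt b) ∨
        ¬ Hit S.Ad S.Us S.pt H w f j O (S.pt (b + s))) := by
      by_cases h3 : InCl S k t j (PP U H w f' b) z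
      · obtain ⟨O, a1, a2, a3⟩ := exists_not_hit S hc hz (h2 h3)
        exact ⟨O, a1, a2, Or.inr a3⟩
      · obtain ⟨O, a1, a2, a3⟩ := exists_not_hit S hc hz h3
        exact ⟨O, a1, a2, Or.inl a3⟩
    obtain ⟨O, a1, a2, a3⟩ := g1
    obtain ⟨O', b1, b2, b3⟩ := g2
    obtain ⟨O'', e1, e2, e3, e4⟩ := exists_inter S hc a1 b1 a2 b2
    refine ⟨O'', (hcv' O'').2 ⟨e1, (cov_iff S O'').2 ⟨b, hb, ?_, ?_⟩⟩, e2⟩
    · exact a3.imp (fun h h' => h (hit_mono e3 h')) fun h h' => h (hit_mono e3 h')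
    · exact b3.imp (fun h h' => h (hit_mono e4 h')) fun h h' => h (hit_mono e4 h'))
  have hfin' : {O | Mem O c'}.Finite := S.std c' hfin
  have hex : ∀ O, Mem O c' → ∃ b, TT U H F s τ w b ∧
      (¬ Hit S.Ad S.Us S.pt H w f j O (S.pt b) ∨
        ¬ Hit S.Ad S.Us S.pt H w f' j O (S.pt (b + s))) ∧
      (¬ Hit S.Ad S.Us S.pt H w f' j O (S.pt b) ∨
        ¬ Hit S.Ad S.Us S.pt H w f j O (S.pt (b + s))) := fun O hO =>
    (cov_iff S O).1 ((hcv' O).1 (hsub O hO)).2
  choose! β hβ using hex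
  obtain ⟨x, hx1, hx2⟩ := exists_x hU hD w f (hfin'.toFinset.image β) (by
    intro b hb
    obtain ⟨O, hO, rfl⟩ := Finset.mem_image.1 hb
    exact (hβ O (hfin'.mem_toFinset.1 hO)).1)
  obtain ⟨y, hy⟩ := app_ex hc.inj x
  obtain ⟨O, hO, hyO⟩ := hcov y (app_cod hc.inj hy)
  obtain ⟨_, h1, h2⟩ := hβ O hO
  obtain ⟨h3, h4⟩ := hx2 (β O) (Finset.mem_image_of_mem β (hfin'.mem_toFinset.2 hO))
  -- membership in `PP`
  have key : ∀ (g : V → Prop) (b : V), (∀ v, v ≠ w → (f v ↔ g v)) → (U (x + b) ↔ g w) →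
      (∀ c ∈ H, c ≠ 0 → (U (x + b + c) ↔ f (w + c))) → x ∈ PP U H w g b := by
    intro g b hg hb hbc
    refine ⟨fun c hc' => (hx1 c hc').trans (hg c fun e => hw (e ▸ hc')), fun c hc' => ?_⟩
    by_cases h0 : c = 0
    · subst h0
      rw [add_zero, add_zero]
      exact hb
    · refine (hbc c hc' h0).trans (hg _ ?_)
      intro e
      exact h0 (by simpa using e)
  have hit : ∀ (g : V → Prop) (b : V), x ∈ PP U H w g b →
      Hit S.Ad S.Us S.pt H w g j O (S.pt b) := fun g b hg =>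
    (hit_iff S hc.inj H w g O b).2 ⟨x, hg, y, hy, hyO⟩
  by_cases hcase : (U (x + β O) ↔ f w)
  · have k1 := hit f (β O) (key f (β O) (fun _ _ => Iff.rfl) hcase fun c hc' h0 => (h3 c hc' h0).1)
    have k2 := hit f' (β O + s) (key f' (β O + s) hff (by tauto)
      fun c hc' h0 => (h3 c hc' h0).2)
    rcases h1 with h1 | h1
    · exact h1 k1
    · exact h1 k2
  · have k1 := hit f' (β O) (key f' (β O) hff (by tauto) fun c hc' h0 => (h3 c hc' h0).1)
    have k2 := hit f (β O + s) (key f (β O + s) (fun _ _ => Iff.rfl) (by tauto)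
      fun c hc' h0 => (h3 c hc' h0).2)
    rcases h2 with h2 | h2
    · exact h2 k1
    · exact h2 k2

/-- transport with a fixed point `q` -/
theorem transport (hc : IsCompactification k t j S.D) (e : Finset V) (hk : S.sup e k)
    (ht : S.sup e t) (hj : S.sup e j) {q : N} (hq : S.sup e q) (h : V ≃+ V) (hA : Aut U e h)
    (hH : ∀ c ∈ H, h c = c) (g : V → Prop) (b : V)
    (h1 : InCl S k t j (PP U H w g b) q) : InCl S k t j (PP U H w g (h b)) q := by
  rw [← qc_iff S hc.inj] at h1 ⊢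
  have := S.key e h hA Ix (fun v => Qc (v Ix.ad) (v Ix.us) (fun a => v (Ix.pt a)) H w g
    (v Ix.k) (v Ix.t) (v Ix.j) (v Ix.q) (v Ix.u))
    (dz_qc _ _ (fun a => Ix.pt a) H w g _ _ _ _ _) (val S k t j q (S.pt b) id)
    (val S k t j q (S.pt (h b)) h) (by
      intro i
      cases i with
      | ad => exact Or.inl ⟨rfl, S.sup_mono _ _ _ (Finset.empty_subset _) S.sup_Ad⟩
      | us => exact Or.inl ⟨rfl, S.sup_mono _ _ _ (Finset.empty_subset _) S.sup_Us⟩
      | d => exact Or.inl ⟨rfl, S.sup_mono _ _ _ (Finset.empty_subset _) S.sup_D⟩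
      | k => exact Or.inl ⟨rfl, hk⟩
      | t => exact Or.inl ⟨rfl, ht⟩
      | j => exact Or.inl ⟨rfl, hj⟩
      | q => exact Or.inl ⟨rfl, hq⟩
      | u => exact Or.inr ⟨b, rfl, rfl⟩
      | pt a => exact Or.inr ⟨a, rfl, rfl⟩)
  have h2 := this.1 h1
  refine (qc_congr (P' := fun a => S.pt (h a)) ?_ w g k t j q (S.pt (h b))).2 h2
  intro c hc'
  rw [hH c hc']

/-- transport of the existence of `q` -/
theorem transport_ex (hc : IsCompactification k t j S.D) (e : Finset V) (hk : S.sup e k)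
    (ht : S.sup e t) (hj : S.sup e j) (h : V ≃+ V) (hA : Aut U e h)
    (hH : ∀ c ∈ H, h c = c) (g g' : V → Prop) (b : V)
    (h1 : ∃ q, InCl S k t j (PP U H w g b) q ∧ InCl S k t j (PP U H w g' b) q) :
    ∃ q, InCl S k t j (PP U H w g (h b)) q ∧ InCl S k t j (PP U H w g' (h b)) q := by
  simp only [← qc_iff S hc.inj] at h1 ⊢
  have := S.key e h hA Ix (fun v => ∃ q, Qc (v Ix.ad) (v Ix.us) (fun a => v (Ix.pt a)) H w g
    (v Ix.k) (v Ix.t) (v Ix.j) q (v Ix.u) ∧ Qc (v Ix.ad) (v Ix.us) (fun a => v (Ix.pt a)) H w g'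
    (v Ix.k) (v Ix.t) (v Ix.j) q (v Ix.u))
    (dz_ex (dz_and (dz_qc _ _ (fun a => Sum.inl (Ix.pt a)) H w g _ _ _ _ _)
      (dz_qc _ _ (fun a => Sum.inl (Ix.pt a)) H w g' _ _ _ _ _))) (val S k t j S.D (S.pt b) id)
    (val S k t j S.D (S.pt (h b)) h) (by
      intro i
      cases i with
      | ad => exact Or.inl ⟨rfl, S.sup_mono _ _ _ (Finset.empty_subset _) S.sup_Ad⟩
      | us => exact Or.inl ⟨rfl, S.sup_mono _ _ _ (Finset.empty_subset _) S.sup_Us⟩
      | d => exact Or.inl ⟨rfl, S.sup_mono _ _ _ (Finset.empty_subset _) S.sup_D⟩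
      | k => exact Or.inl ⟨rfl, hk⟩
      | t => exact Or.inl ⟨rfl, ht⟩
      | j => exact Or.inl ⟨rfl, hj⟩
      | q => exact Or.inl ⟨rfl, S.sup_mono _ _ _ (Finset.empty_subset _) S.sup_D⟩
      | u => exact Or.inr ⟨b, rfl, rfl⟩
      | pt a => exact Or.inr ⟨a, rfl, rfl⟩)
  obtain ⟨q, h2, h3⟩ := this.1 h1
  have hcg : ∀ c ∈ H, S.pt c = (fun a => S.pt (h a)) c := by
    intro c hc'
    simp only [hH c hc']
  exact ⟨q, (qc_congr hcg w g k t j q (S.pt (h b))).2 h2,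
    (qc_congr hcg w g' k t j q (S.pt (h b))).2 h3⟩

end claim

theorem incl_mono {U : V → Prop} (S : SM U N) {k t j : N} {P P' : Set V} (h : P ⊆ P') {q : N}
    (hq : InCl S k t j P q) : InCl S k t j P' q :=
  ⟨hq.1, fun u hu hqu => by
    obtain ⟨x, hx, y, hy⟩ := hq.2 u hu hqu
    exact ⟨x, h hx, y, hy⟩⟩

theorem zmod2 : ∀ x : ZMod 2, x ≠ 0 → x = 1 := by decide

theorem top1 {U : V → Prop} (hU : Ext U) (hHo : Homog U) (S : SM U N) (k t j : N)
    (hc : IsCompactification k t j S.D) (e : Finset V) (hk : S.sup e k) (ht : S.sup e t)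
    (hj : S.sup e j) (H : AddSubgroup V) (w : V) (hfin : (H : Set V).Finite)
    (he : (e : Set V) ⊆ H) (hw : w ∉ H) (f f' : V → Prop)
    (hff : ∀ v, v ≠ w → (f v ↔ f' v)) :
    ∃ q, InCl S k t j (Pat U {v | v ∈ H ∨ v + w ∈ H} f) q ∧
      InCl S k t j (Pat U {v | v ∈ H ∨ v + w ∈ H} f') q := by
  classical
  by_cases hne : (f w ↔ f' w)
  · -- equal patterns
    have hf : f = f' := by
      funext v
      by_cases e : v = w
      · subst e; exact propext hne
      · exact propext (hff v e)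
    subst hf
    have hfin2 : {v | v ∈ H ∨ v + w ∈ H}.Finite := by
      refine (hfin.union (hfin.image fun v => v + w)).subset ?_
      rintro v (hv | hv)
      · exact Or.inl hv
      · exact Or.inr ⟨v + w, hv, add_cancel' v w⟩
    obtain ⟨x, _, hx⟩ := hU hfin2.toFinset {v | f v}
    obtain ⟨y, hy⟩ := app_ex hc.inj x
    have : InCl S k t j (Pat U {v | v ∈ H ∨ v + w ∈ H} f) y :=
      ⟨app_cod hc.inj hy, fun u _ hyu => ⟨x, fun h hh => hx h (hfin2.mem_toFinset.2 hh), y, hy,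
        hyu⟩⟩
    exact ⟨y, this, this⟩
  · -- the finite sets
    let Hf : Finset V := hfin.toFinset
    have mH : ∀ c, c ∈ Hf ↔ c ∈ H := fun c => hfin.mem_toFinset
    have hwf : w ∉ Hf := fun h => hw ((mH w).1 h)
    obtain ⟨s, hs, _⟩ := hU Hf ∅
    obtain ⟨τ, hτ, _⟩ := hU (Hf ∪ Hf.image fun a => a + s) ∅
    have hτ1 : τ ∉ Hf := fun h => hτ (Finset.mem_union_left _ h)
    have hτ2 : τ + s ∉ Hf := fun h => hτ (Finset.mem_union_right _
      (Finset.mem_image.2 ⟨τ + s, h, add_cancel' τ s⟩))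
    let F : Finset V := Hf ∪ (Hf.image fun a => a + s) ∪ (Hf.image fun a => a + τ) ∪
      Hf.image fun a => a + (s + τ)
    have him : ∀ c d : V, c ∈ (Hf.image fun a => a + d) ↔ c + d ∈ Hf := by
      intro c d
      rw [Finset.mem_image]
      constructor
      · rintro ⟨a, ha, rfl⟩
        rw [add_cancel']; exact ha
      · intro h
        exact ⟨c + d, h, add_cancel' c d⟩
    have hD : Dom Hf s τ F :=
      { zero := (mH 0).2 H.zero_mem
        add := fun a ha b hb => (mH _).2 (H.add_mem ((mH a).1 ha) ((mH b).1 hb))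
        hs := hs
        ht := hτ1
        hts := hτ2
        mem := by
          intro c
          simp only [F, Finset.mem_union, him, or_assoc]
          rw [← add_assoc] }
    obtain ⟨q, hqk, hq⟩ := claim S hU hc hD hwf hff hne
    obtain ⟨eq, heq⟩ := S.sup_ex q
    obtain ⟨M, hM⟩ := exists_wm (e ∪ eq ∪ F ∪ {w, s})
    have hMe : ∀ a ∈ e, a ∈ WM M := fun a ha => hM a (by simp [ha])
    have hMq : ∀ a ∈ eq, a ∈ WM M := fun a ha => hM a (by simp [ha])
    have hMF : ∀ a ∈ F, a ∈ WM M := fun a ha => hM a (by simp [ha])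
    have hMw : w ∈ WM M := hM w (by simp)
    have hMs : s ∈ WM M := hM s (by simp)
    have hM0 : (0 : V) ∈ WM M := fun i _ => rfl
    obtain ⟨b, hbW, hb⟩ := hU (wm_finite M).toFinset {z | z ∈ F ∧ gg U Hf s τ w z}
    have hbW' : b ∉ WM M := fun h => hbW ((wm_finite M).mem_toFinset.2 h)
    have hb' : ∀ z ∈ WM M, (U (b + z) ↔ z ∈ F ∧ gg U Hf s τ w z) := fun z hz =>
      hb z ((wm_finite M).mem_toFinset.2 hz)
    have hT : TT U Hf F s τ w b := ⟨fun h => hbW' (hMF b h), fun c hc' => by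
      rw [hb' c (hMF c hc')]
      exact ⟨fun h => h.2, fun h => ⟨hc', h⟩⟩⟩
    obtain ⟨i, hiM, hbi0⟩ : ∃ i, M ≤ i ∧ b i ≠ 0 := by
      by_contra hcon
      push Not at hcon
      exact hbW' hcon
    have hbi := zmod2 _ hbi0
    have hbs : b + s ∉ WM M := fun h => by
      have := wm_add h hMs
      rw [add_cancel'] at this
      exact hbW' this
    -- first automorphism
    obtain ⟨h, hh1, hh2, hh3⟩ := exists_aut hHo (WM M) (wm_finite M) hM0
      (fun a ha c hc' => wm_add ha hc') b (b + s) i (fun a ha => ha i hiM) hbi hbs (by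
        intro c hc'
        have e1 : b + s + c = b + (c + s) := by abel
        rw [e1, hb' _ (wm_add hc' hMs), hb' _ hc', hD.mem_shift, gg_shift])
    have hTs := tt_shift hD hT
    have hA : Aut U (e ∪ eq : Finset V) h := ⟨hh1, fun v hv => hh2 v (by
      rcases Finset.mem_union.1 (Finset.mem_coe.1 hv) with h | h
      · exact hMe v h
      · exact hMq v h)⟩
    have hHf : ∀ c ∈ Hf, h c = c := fun c hc' => hh2 c (hMF c (hD.memH hc'))
    have tr : ∀ g : V → Prop, InCl S k t j (PP U Hf w g b) q →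
        InCl S k t j (PP U Hf w g (b + s)) q := by
      intro g hg
      have := transport S hc (e ∪ eq) (S.sup_mono _ _ _ Finset.subset_union_left hk)
        (S.sup_mono _ _ _ Finset.subset_union_left ht)
        (S.sup_mono _ _ _ Finset.subset_union_left hj)
        (S.sup_mono _ _ _ Finset.subset_union_right heq) h hA hHf g b hg
      rw [hh3] at this
      exact this
    have hboth : ∃ q, InCl S k t j (PP U Hf w f (b + s)) q ∧
        InCl S k t j (PP U Hf w f' (b + s)) q := by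
      rcases hq b hT with ⟨h1, h2⟩ | ⟨h1, h2⟩
      · exact ⟨q, tr f h1, h2⟩
      · exact ⟨q, h2, tr f' h1⟩
    -- second automorphism
    have hsi : s i = 0 := hMs i hiM
    obtain ⟨h', hh1', hh2', hh3'⟩ := exists_aut hHo (H : Set V) hfin H.zero_mem
      (fun a ha c hc' => H.add_mem ha hc') (b + s) w i
      (fun a ha => hMF a (hD.memH ((mH a).2 ha)) i hiM)
      (by rw [Finsupp.add_apply, hbi, hsi, add_zero]) hw (by
        intro c hc'
        have hcf : c ∈ Hf := (mH c).2 hc'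
        rw [hTs.2 c (hD.memH hcf), gg_H hD U w hcf])
    obtain ⟨q', h1, h2⟩ := transport_ex S hc e hk ht hj h'
      ⟨hh1', fun v hv => hh2' v (he hv)⟩ (fun c hc' => hh2' c ((mH c).1 hc')) f f' (b + s) hboth
    rw [hh3'] at h1 h2
    have hsub : ∀ g : V → Prop, PP U Hf w g w ⊆ Pat U {v | v ∈ H ∨ v + w ∈ H} g := by
      rintro g a ⟨ha1, ha2⟩ v (hv | hv)
      · exact ha1 v ((mH v).2 hv)
      · have := ha2 (v + w) ((mH _).2 hv)
        have e1 : a + w + (v + w) = a + v := by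
          have : a + w + (v + w) = a + v + (w + w) := by abel
          rw [this, dbl, add_zero]
        have e2 : w + (v + w) = v := by rw [add_comm, add_cancel']
        rw [e1, e2] at this
        exact this
    exact ⟨q', incl_mono S (hsub f) h1, incl_mono S (hsub f') h2⟩

theorem taskTop1 : TaskTop1 := by
  intro U hU hHo N _ S k t j hc e hk ht hj H w hfin he hw f f' hff
  exact top1 hU hHo S k t j hc e hk ht hj H w hfin he hw f f' hff

end Pool.Agent.H62R3.Nas
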